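import Pool.Agent.Helper78.TU.StB

/-!
# Project TU, module ZERO: the central value and the functional, odd case
-/

set_option autoImplicit false

namespace Pool.Agent.Helper2.TU

open Pool.Agent.Helper14.CV Pool.Agent.Helper28.WK Pool.Agent.Helper78.TW Pool.Agent.Helper78.TU

private theorem sum_range_zmod (D : ℕ) [NeZero D] (f : ZMod D → ℂ) :
    ∑ a ∈ Finset.range D, f (a : ZMod D) = ∑ x : ZMod D, f x := by
  refine Finset.sum_bij' (fun a _ => (a : ZMod D)) (fun x _ => x.val) ?_ ?_ ?_ ?_ ?_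
  · intro a _; exact Finset.mem_univ _
  · intro x _; exact Finset.mem_range.2 (ZMod.val_lt x)
  · intro a ha; exact ZMod.val_natCast_of_lt (Finset.mem_range.1 ha)
  · intro x _; exact ZMod.natCast_zmod_val x
  · intro a _; rfl

/-- **ZERO.** -/
theorem hZerO : StZerO := by
  intro hW hP hC D n χ e hD h1 he hm1 h2 G hG hEq hz
  have : NeZero D := ⟨by omega⟩
  have hA := (hC D χ e hD h1 he hm1 h2).1
  have hinv : ∀ a : ZMod D, χ⁻¹ a = (χ a)⁻¹ := fun a => MulChar.inv_apply_eq_inv' χ a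
  have hne : χ ≠ 1 := by
    intro h
    have h3 : χ (-1) = 1 := by
      rw [h, MulChar.one_apply (isUnit_one.neg)]
    rw [hm1] at h3
    norm_num at h3
  have hne' : χ⁻¹ ≠ 1 := by
    intro h
    exact hne (inv_eq_one.1 h)
  have hs0 : ∑ a ∈ Finset.range D, χ⁻¹ (a : ZMod D) = 0 := by
    rw [sum_range_zmod D (fun a => χ⁻¹ a)]
    exact MulChar.sum_eq_zero_of_ne_one hne'
  have he0 : (e : ℂ) ^ n ≠ 0 := by
    apply pow_ne_zero
    rcases he with rfl | rfl <;> norm_num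
  have hsupp : ∀ a : ZMod D, ¬ IsUnit a → χ⁻¹ a = 0 ∧ -(e : ℂ) ^ n * χ a = 0 := fun a ha =>
    ⟨MulChar.map_nonunit _ ha, by rw [MulChar.map_nonunit _ ha, mul_zero]⟩
  have hcond : ∀ a b : ZMod D, 2 ^ n * a * b = -1 → -(e : ℂ) ^ n * χ b = χ⁻¹ a := by
    intro a b hab
    have h3 : χ a * (-(e : ℂ) ^ n * χ b) = 1 := by
      have h4 := congrArg χ hab
      rw [map_mul, map_mul, map_pow, h2, hm1] at h4
      linear_combination -h4
    rw [hinv a]
    exact eq_inv_of_mul_eq_one_right h3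
  have e1 := hW ℂ inferInstance D n (fun a => χ⁻¹ a) (fun a => -(e : ℂ) ^ n * χ a) hD h1 hsupp
    hs0 hcond G hG
  obtain ⟨k, hk⟩ := hEq
  have e2 : ph D (fun a => χ⁻¹ a) (act 0 (-1) (2 ^ n) 0 G) = 0 := by
    have e3 : ph D (fun a => χ⁻¹ a) (act 0 (-1) (2 ^ n) 0 G) =
        (e : ℂ) ^ n * ph D (fun a => χ⁻¹ a) G +
          (∑ a ∈ Finset.range D, χ⁻¹ (a : ZMod D)) * k := by
      unfold ph
      rw [Finset.mul_sum, Finset.sum_mul, ← Finset.sum_add_distrib]
      refine Finset.sum_congr rfl fun a _ => ?_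
      rw [hk (a : ℤ) (D : ℤ) (Or.inr (by exact_mod_cast (NeZero.ne D)))]
      have e4 : ((e ^ n) • G) (a : ℤ) (D : ℤ) = (e : ℂ) ^ n * G (a : ℤ) (D : ℤ) := by
        simp only [Pi.smul_apply, zsmul_eq_mul, Int.cast_pow]
      rw [e4]
      ring
    rw [e3, hz, hs0]
    ring
  have e4 : ph D (fun a => χ a) G = 0 := by
    rw [e2] at e1
    have e5 : ph D (fun a => -(e : ℂ) ^ n * χ a) G = -(e : ℂ) ^ n * ph D (fun a => χ a) G := by
      unfold ph
      rw [Finset.mul_sum]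
      refine Finset.sum_congr rfl fun a _ => ?_
      ring
    rw [e5] at e1
    have e6 : (e : ℂ) ^ n * ph D (fun a => χ a) G = 0 := by linear_combination -e1
    exact (mul_eq_zero.1 e6).resolve_left he0
  have e5 : ph D (fun a => χ a + χ⁻¹ a) G = 0 := by
    have e6 : ph D (fun a => χ a + χ⁻¹ a) G = ph D (fun a => χ a) G + ph D (fun a => χ⁻¹ a) G := by
      unfold ph
      rw [← Finset.sum_add_distrib]
      refine Finset.sum_congr rfl fun a _ => ?_
      ring
    rw [e6, e4, hz, add_zero]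
  have e7 := ((hP ℂ inferInstance D e (fun a => χ a + χ⁻¹ a) hA n G G).2 hG).2.2
  have e8 : ph D (fun a => χ a + χ⁻¹ a) (Hm G) = ph D (fun a => χ a + χ⁻¹ a) G -
      ph D (fun a => χ a + χ⁻¹ a) (act (-1) 0 0 1 G) := by
    unfold ph
    rw [← Finset.sum_sub_distrib]
    refine Finset.sum_congr rfl fun a _ => ?_
    show _ * (G a D - G (-a) D) = _ * G a D - _ * G (-1 * a + 0 * D) (0 * a + 1 * D)
    have e9 : (-1 * (a : ℤ) + 0 * (D : ℤ)) = -a := by ring
    have e10 : (0 * (a : ℤ) + 1 * (D : ℤ)) = D := by ring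
    rw [e9, e10]
    ring
  rw [e8, e7, e5]
  ring

end Pool.Agent.Helper2.TU
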